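import Pool.Agent.H54.WB.TargetsA

/-!
# The order of the core
-/

set_option autoImplicit false

namespace Pool.Agent.H54.WBP

open Pool.Agent.H54.WB

theorem pf_ORD : T_ORD := by
  classical
  intro V _ E co ch h
  have irr : ∀ u, ¬ CLt E co ch u u := fun u hu => h.asym u u hu hu
  have trans : ∀ u v w, CLt E co ch u v → CLt E co ch v w → CLt E co ch u w := by
    rintro u v w ⟨hu, hv, c, hc, hcu, hcv⟩ ⟨_, hw, c', hc', hcv', hcw'⟩
    refine ⟨hu, hw, c', hc', ?_, hcw'⟩
    by_contra hne
    exact h.asym u v ⟨hu, hv, c, hc, hcu, hcv⟩ ⟨hv, hu, c', hc', hcv', hne⟩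
  obtain ⟨rk, hrk⟩ : ∃ rk : V → ℕ, ∀ v, rk v = {u | CLt E co ch u v}.ncard := ⟨_, fun _ => rfl⟩
  have mono : ∀ u v, CLt E co ch u v → rk u < rk v := by
    intro u v huv
    rw [hrk, hrk]
    refine Set.ncard_lt_ncard ⟨fun w hw => trans w u v hw huv, fun hs => ?_⟩ (Set.toFinite _)
    exact irr u (hs huv)
  have key : ∀ u v, co u → co v → (CLt E co ch u v ↔ rk u < rk v) := by
    intro u v hu hv
    refine ⟨mono u v, fun hlt => ?_⟩
    by_cases he : u = v
    · subst he
      omega
    rcases h.tot u v hu hv he with h1 | h1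
    · exact h1
    · have := mono v u h1
      omega
  have inj : Set.InjOn rk {v | co v} := by
    intro u hu v hv he
    by_contra hne
    rcases h.tot u v hu hv hne with h1 | h1
    · have := mono u v h1
      omega
    · have := mono v u h1
      omega
  have maps : Set.MapsTo rk {v | co v} (Set.Iio {v | co v}.ncard) := by
    intro v hv
    show rk v < _
    rw [hrk]
    refine Set.ncard_lt_ncard ⟨fun u hu => hu.1, fun hs => ?_⟩ (Set.toFinite _)
    exact irr v (hs hv)
  have himg : rk '' {v | co v} = Set.Iio {v | co v}.ncard := by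
    refine Set.eq_of_subset_of_ncard_le maps.image_subset ?_ (Set.finite_Iio _)
    rw [Set.InjOn.ncard_image inj, Set.ncard_eq_toFinset_card', Set.toFinset_Iio, Nat.card_Iio]
  refine ⟨rk, key, ⟨maps, inj, fun n hn => ?_⟩, ?_⟩
  · rw [← himg] at hn
    exact hn
  · choose! f hf using h.ex
    symm
    refine Set.ncard_congr (fun v _ => f v) (fun v hv => (hf v hv).1) ?_ ?_
    · intro u v hu hv he
      by_contra hne
      have h1 := (hf u hu).2
      have h2 := (hf v hv).2
      have he' : f u = f v := he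
      rw [he'] at h1
      rcases h.tot u v hu hv hne with h3 | h3
      · exact irr u ((h1 u hu).1 ((h2 u hu).2 h3))
      · exact irr v ((h2 v hv).1 ((h1 v hv).2 h3))
    · intro c hc
      obtain ⟨v, hv, hcv⟩ := h.all c hc
      exact ⟨v, hv, h.un v hv _ _ (hf v hv).1 hc (hf v hv).2 hcv⟩

end Pool.Agent.H54.WBP
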