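import Pool.Agent.H54.WB.TargetsB
import Pool.Agent.H10.WB.NGS

/-!
# Sizes of the models of small width and grammars
-/

set_option autoImplicit false

namespace Pool.Agent.H54.WBP

open Pool.Agent.H54.WB
open Pool.Agent.H69.Sp Pool.Agent.H69.VR Pool.Agent.H8.VR Pool.Agent.H8.MC Pool.Agent.H8.JS
open Pool.Agent.H8.MP (Der der_gen gen_map gen_fin)
open Pool.Agent.H10.WB (ng_mono ng_below ng_bz)

theorem wgs_D {W : Width} {k m : ℕ} {H : Gram (So k) (Co k)} (hH : IsGW W k m H) {φ : MS} :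
    ∀ o ∈ (ext H (.inl 0) φ).ops, o.D = {n | 0 < n} := by
  intro y hy
  obtain ⟨o, ho, a, b, -, -, -, -, -, -, h, -⟩ := mem_ops.1 hy
  rw [h]
  exact ((hH.ops o).1 ho).1

theorem pf_WGS (hNFE : T_NFE) (hGEX : T_GEX) (hWG1 : T_WG1) (hWG2 : T_WG2) : T_WGS := by
  intro W Ψ hΨ
  obtain ⟨m₀, hm₀⟩ := ng_below Ψ
  have hm : 0 < m₀ + 1 := Nat.succ_pos _
  have hb := MS.below_clo (ng_mono (Nat.le_succ _) Ψ hm₀) Ψ.vb
  refine ⟨Ψ.clo Ψ.vb, fun k => ?_⟩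
  obtain ⟨H, hH⟩ := hGEX W (W.ps k) (m₀ + 1)
  refine ⟨ext H (.inl 0) _, none, fun n => ?_⟩
  constructor
  · rintro ⟨hn, P, G, hW, hM⟩
    have : Nonempty (Fin n) := ⟨⟨0, hn⟩⟩
    obtain ⟨anc, po, hA⟩ := (hNFE W (Fin n) G k).1 hW
    obtain ⟨c, hc⟩ := hWG1 W _ _ H hm hH (Fin n) G P anc po hA
    have h2 : ∀ (e : ℕ → Fin n) (V : ℕ → Set (Fin n)),
        Ψ.Sat P (fun i u v => i = 0 ∧ G.Adj u v) e V :=
      fun e V => (ng_bz P _ _ (fun a b => ⟨fun h => ⟨rfl, h⟩, fun h => h.2⟩) Ψ hΨ e V).1 (hM e V)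
    have h3 := (gen_of_gen (s₀ := .inl 0) hb hc).2 rfl ((dec_iff c Ψ).2 h2)
    have h4 := (gen_fin h3).2
    rwa [Set.ncard_univ, Nat.card_fin] at h4
  · intro h
    have hn := h.pos
    obtain ⟨A, _, P, R, c, h1, h2⟩ := der_gen (m := m₀ + 1) (wgs_D hH) h
    have e := Fintype.equivFinOfCardEq h1
    have h3 := gen_map h2 e e.injective (fun i a => P i (e.symm a))
      (fun i a b => R i (e.symm a) (e.symm b)) (fun a => c (e.symm a))
      (fun i a => by simp) (fun i a b => by simp) (fun a _ => by simp)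
    have h4 : e '' Set.univ = Set.univ := by
      rw [Set.image_univ]
      exact e.surjective.range_eq
    rw [h4] at h3
    have : Nonempty (Fin n) := ⟨⟨0, hn⟩⟩
    obtain ⟨h5, h6⟩ := good_of_gen hb h3
    have h7 := (dec_iff _ Ψ).1 h6
    obtain ⟨h8, h9, anc, po, hA⟩ := hWG2 W _ _ H hm hH (Fin n) _ _ _ h5
    refine ⟨hn, fun i a => P i (e.symm a),
      { Adj := fun a b => R 0 (e.symm a) (e.symm b), symm := ⟨h8⟩, loopless := ⟨h9⟩ },
      (hNFE W (Fin n) _ k).2 ⟨anc, po, hA⟩, fun e' V => ?_⟩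
    exact (ng_bz _ (fun i a b => R i (e.symm a) (e.symm b)) _ (fun a b => Iff.rfl) Ψ hΨ e' V).1
      (h7 e' V)

end Pool.Agent.H54.WBP
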